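import Pool.Agent.MP_27ef7a_al.H97.NotNPF

set_option autoImplicit false

open Pool.Agent.MP_27ef7a_al.H97

namespace Pool.Agent.Results.MP_27ef7a_al.Disproof

theorem result :
    ∃ (G : Type) (_ : Group G), Group.FG G ∧ IsSolubleByFinite G ∧ InNPFInfStar G ∧ ¬ IsNPF G := by
  refine ⟨GG, inferInstance, GG_fg, ⟨⊤, inferInstance, inferInstance, inferInstance⟩, ?_,
    not_isNPF⟩
  intro S hS
  obtain ⟨a, ha, b, hb, hab⟩ := hS.nontrivial
  exact ⟨a, ha, b, hb, hab, pair_isNPF a b⟩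

end Pool.Agent.Results.MP_27ef7a_al.Disproof
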